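import Pool.Agent.K3h20.CR.Stm

/-!
# Project CR, brick TR: transfer from the coordinate `x = (s v) ^ n` to `s`.
-/

set_option autoImplicit false

open Set Filter Topology MeasureTheory Metric

namespace Pool.Agent.K3h34.CR

open Pool.Agent.K3h20.CR

/-- The determinant of the multiplication by a complex number. -/
lemma det_mul (c : ℂ) :
    (((1 : ℂ →L[ℂ] ℂ).smulRight c).restrictScalars ℝ : ℂ →L[ℝ] ℂ).det = ‖c‖ ^ 2 := by
  rw [ContinuousLinearMap.det]
  have h1 : ((((1 : ℂ →L[ℂ] ℂ).smulRight c).restrictScalars ℝ : ℂ →L[ℝ] ℂ) : ℂ →ₗ[ℝ] ℂ)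
      = (((1 : ℂ →L[ℂ] ℂ).smulRight c : ℂ →L[ℂ] ℂ) : ℂ →ₗ[ℂ] ℂ).restrictScalars ℝ := rfl
  rw [h1, LinearMap.det_restrictScalars]
  have h2 : (((1 : ℂ →L[ℂ] ℂ).smulRight c : ℂ →L[ℂ] ℂ) : ℂ →ₗ[ℂ] ℂ).det = c := by
    have h3 : (((1 : ℂ →L[ℂ] ℂ).smulRight c : ℂ →L[ℂ] ℂ) : ℂ →ₗ[ℂ] ℂ)
        = c • (LinearMap.id : ℂ →ₗ[ℂ] ℂ) := by
      ext; simp
    rw [h3, LinearMap.det_smul]
    simp
  rw [h2, Algebra.norm_complex_apply, Complex.normSq_eq_norm_sq]

/-- rotations preserve the measure -/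
lemma vol_rot (ω : ℂ) (hω : ‖ω‖ = 1) (T : Set ℂ) :
    volume ((fun s => ω * s) '' T) = volume T := by
  have h1 : (fun s => ω * s)
      = (((1 : ℂ →L[ℂ] ℂ).smulRight ω).restrictScalars ℝ : ℂ →L[ℝ] ℂ) := by
    ext s; simp [mul_comm]
  have h2 := det_mul ω
  rw [ContinuousLinearMap.det] at h2
  rw [h1, MeasureTheory.Measure.addHaar_image_continuousLinearMap, h2, hω]
  simp

set_option maxHeartbeats 1600000 in
theorem t_tr : St_tr := by
  intro v ρ₀ hv hρ hρ1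
  have hv' : 0 < ‖v‖ := norm_pos_iff.mpr hv
  refine ⟨1 / (‖v‖ ^ 2 * ρ₀ ^ 4), by positivity, 1, fun n hn S hS => ?_⟩
  have hn0 : n ≠ 0 := by omega
  have hnpos : (0 : ℝ) < n := by positivity
  -- measurable hull
  set S' : Set ℂ := toMeasurable volume S ∩ {x : ℂ | ρ₀ ≤ ‖x‖ ∧ ‖x‖ ≤ ρ₀⁻¹} with hS'
  have hS'm : MeasurableSet S' := by
    refine (measurableSet_toMeasurable _ _).inter ?_
    exact (isClosed_le continuous_const continuous_norm).measurableSet.inter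
      (isClosed_le continuous_norm continuous_const).measurableSet
  have hSS' : S ⊆ S' := fun x hx => ⟨subset_toMeasurable _ _ hx, hS x hx⟩
  have hvS' : volume S' ≤ volume S :=
    (measure_mono inter_subset_left).trans (measure_toMeasurable S).le
  set G : ℂ → ℂ := fun s => (s * v) ^ n with hG
  have hGc : Continuous G := by fun_prop
  set A : Set ℂ := {s : ℂ | -(Real.pi / n) < (s * v).arg ∧ (s * v).arg ≤ Real.pi / n} with hA
  have hAm : MeasurableSet A := by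
    have hm : Measurable (fun s : ℂ => (s * v).arg) :=
      Complex.measurable_arg.comp (measurable_id.mul_const v)
    exact (measurableSet_lt measurable_const hm).inter (measurableSet_le hm measurable_const)
  set T : Set ℂ := A ∩ G ⁻¹' S' with hT
  have hTm : MeasurableSet T := hAm.inter (hGc.measurable hS'm)
  have hinj : InjOn G T := by
    intro s hs t ht hst
    have h1 := Complex.pow_cpow_nat_inv hn0 hs.1.1 hs.1.2
    have h2 := Complex.pow_cpow_nat_inv hn0 ht.1.1 ht.1.2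
    have hst' : (s * v) ^ n = (t * v) ^ n := hst
    rw [hst', h2] at h1
    exact (mul_right_cancel₀ hv h1).symm
  set G' : ℂ → ℂ := fun s => n * (s * v) ^ (n - 1) * v with hG'
  have hder : ∀ s, HasDerivAt G (G' s) s := by
    intro s
    have h := ((hasDerivAt_id s).mul_const v).fun_pow n
    simpa [hG, hG'] using h
  have harea : ∫⁻ s in T, ENNReal.ofReal (‖G' s‖ ^ 2) = volume (G '' T) := by
    have h := lintegral_abs_det_fderiv_eq_addHaar_image (μ := (volume : Measure ℂ)) hTm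
      (f := G) (f' := fun s => ((1 : ℂ →L[ℂ] ℂ).smulRight (G' s)).restrictScalars ℝ)
      (fun s _ => ((hder s).hasFDerivAt.restrictScalars ℝ).hasFDerivWithinAt) hinj
    rw [← h]
    refine lintegral_congr fun s => ?_
    rw [det_mul, abs_of_nonneg (by positivity)]
  have hlow : ∀ s ∈ T, (n : ℝ) ^ 2 * (‖v‖ ^ 2 * ρ₀ ^ 4) ≤ ‖G' s‖ ^ 2 := by
    intro s hs
    have h1 : ρ₀ ≤ ‖s * v‖ ^ n := by
      have := hs.2.2.1
      simpa [hG, norm_pow] using this
    have h2 : ‖s * v‖ ^ n ≤ ρ₀⁻¹ := by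
      have := hs.2.2.2
      simpa [hG, norm_pow] using this
    have h3 : ‖s * v‖ ≤ ρ₀⁻¹ := by
      by_cases h : ‖s * v‖ ≤ 1
      · exact h.trans ((one_le_inv₀ hρ).mpr hρ1.le)
      · push Not at h
        exact (le_self_pow₀ h.le hn0).trans h2
    have h4 : ρ₀ ^ 2 ≤ ‖s * v‖ ^ (n - 1) := by
      have h5 : ‖s * v‖ ^ n = ‖s * v‖ ^ (n - 1) * ‖s * v‖ := by
        rw [← pow_succ]; congr 1; omega
      have h6 : ρ₀ ≤ ‖s * v‖ ^ (n - 1) * ρ₀⁻¹ := by
        calc ρ₀ ≤ ‖s * v‖ ^ (n - 1) * ‖s * v‖ := by rw [← h5]; exact h1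
          _ ≤ _ := by gcongr
      calc ρ₀ ^ 2 = ρ₀ * ρ₀ := by ring
        _ ≤ (‖s * v‖ ^ (n - 1) * ρ₀⁻¹) * ρ₀ := by gcongr
        _ = _ := by field_simp
    have h7 : ‖G' s‖ = n * ‖s * v‖ ^ (n - 1) * ‖v‖ := by
      simp [hG']
    rw [h7]
    calc (n : ℝ) ^ 2 * (‖v‖ ^ 2 * ρ₀ ^ 4) = (n * ρ₀ ^ 2 * ‖v‖) ^ 2 := by ring
      _ ≤ _ := by gcongr
  have hTvol : ENNReal.ofReal ((n : ℝ) ^ 2 * (‖v‖ ^ 2 * ρ₀ ^ 4)) * volume T ≤ volume S := by
    calc ENNReal.ofReal ((n : ℝ) ^ 2 * (‖v‖ ^ 2 * ρ₀ ^ 4)) * volume T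
        = ∫⁻ s in T, ENNReal.ofReal ((n : ℝ) ^ 2 * (‖v‖ ^ 2 * ρ₀ ^ 4)) := by
          rw [setLIntegral_const]
      _ ≤ ∫⁻ s in T, ENNReal.ofReal (‖G' s‖ ^ 2) :=
          setLIntegral_mono' hTm fun s hs => ENNReal.ofReal_le_ofReal (hlow s hs)
      _ = volume (G '' T) := harea
      _ ≤ volume S' := measure_mono (by rintro _ ⟨s, hs, rfl⟩; exact hs.2)
      _ ≤ volume S := hvS'
  -- covering by rotations
  have hcov : {s : ℂ | (s * v) ^ n ∈ S} ⊆
      ⋃ ω ∈ (Polynomial.nthRoots n (1 : ℂ)).toFinset, (fun s => ω * s) '' T := by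
    intro s hs
    have hs' : (s * v) ^ n ∈ S' := hSS' hs
    have hne : s * v ≠ 0 := by
      intro h0
      have := (hS _ hs).1
      rw [h0, zero_pow hn0, norm_zero] at this
      linarith
    set z₀ : ℂ := ((s * v) ^ n) ^ ((n : ℂ)⁻¹) with hz₀
    have hz₀n : z₀ ^ n = (s * v) ^ n := Complex.cpow_nat_inv_pow _ hn0
    have hz₀ne : z₀ ≠ 0 := by
      intro h0
      rw [h0, zero_pow hn0] at hz₀n
      exact pow_ne_zero n hne hz₀n.symm
    have harg : -(Real.pi / n) < z₀.arg ∧ z₀.arg ≤ Real.pi / n := by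
      have hw : (s * v) ^ n ≠ 0 := pow_ne_zero n hne
      have e1 : z₀ = Complex.exp (Complex.log ((s * v) ^ n) * (n : ℂ)⁻¹) := by
        rw [hz₀, Complex.cpow_def_of_ne_zero hw]
      have him : (Complex.log ((s * v) ^ n) * (n : ℂ)⁻¹).im = ((s * v) ^ n).arg / n := by
        have : ((n : ℂ)⁻¹) = (((n : ℝ)⁻¹ : ℝ) : ℂ) := by push_cast; rfl
        rw [this, Complex.im_mul_ofReal, Complex.log_im]; rfl
      have h1 := Complex.neg_pi_lt_arg ((s * v) ^ n)
      have h2 := Complex.arg_le_pi ((s * v) ^ n)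
      have hn1 : (1 : ℝ) ≤ n := by exact_mod_cast hn
      have h3 : -(Real.pi / n) < ((s * v) ^ n).arg / n := by
        rw [← neg_div]; exact div_lt_div_of_pos_right h1 hnpos
      have h4 : ((s * v) ^ n).arg / n ≤ Real.pi / n := by gcongr
      have h5 : Real.pi / n ≤ Real.pi := div_le_self Real.pi_pos.le hn1
      have : z₀.arg = ((s * v) ^ n).arg / n := by
        rw [e1, Complex.arg_exp, him, toIocMod_eq_self]
        constructor
        · linarith
        · linarith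
      rw [this]
      exact ⟨h3, h4⟩
    have hdv : z₀ / v * v = z₀ := div_mul_cancel₀ _ hv
    refine mem_iUnion₂.mpr ⟨s * v / z₀, ?_, z₀ / v, ⟨?_, ?_⟩, ?_⟩
    · rw [Multiset.mem_toFinset, Polynomial.mem_nthRoots (by omega), div_pow, hz₀n,
        div_self (pow_ne_zero n hne)]
    · show -(Real.pi / n) < (z₀ / v * v).arg ∧ (z₀ / v * v).arg ≤ Real.pi / n
      rw [hdv]; exact harg
    · show (z₀ / v * v) ^ n ∈ S'
      rw [hdv, hz₀n]; exact hs'
    · show s * v / z₀ * (z₀ / v) = s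
      field_simp
  have hcard : ((Polynomial.nthRoots n (1 : ℂ)).toFinset.card : ENNReal) ≤ n := by
    have h := (Multiset.toFinset_card_le (Polynomial.nthRoots n (1 : ℂ))).trans
      (Polynomial.card_nthRoots n 1)
    exact Nat.cast_le.mpr h
  have hT2 : volume T ≤ ENNReal.ofReal (1 / ((n : ℝ) ^ 2 * (‖v‖ ^ 2 * ρ₀ ^ 4))) * volume S := by
    have hpos : 0 < (n : ℝ) ^ 2 * (‖v‖ ^ 2 * ρ₀ ^ 4) := by positivity
    calc volume T = ENNReal.ofReal (1 / ((n : ℝ) ^ 2 * (‖v‖ ^ 2 * ρ₀ ^ 4))) *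
          (ENNReal.ofReal ((n : ℝ) ^ 2 * (‖v‖ ^ 2 * ρ₀ ^ 4)) * volume T) := by
          rw [← mul_assoc, ← ENNReal.ofReal_mul (by positivity), one_div,
            inv_mul_cancel₀ hpos.ne', ENNReal.ofReal_one, one_mul]
      _ ≤ _ := by gcongr
  calc volume {s : ℂ | (s * v) ^ n ∈ S}
      ≤ volume (⋃ ω ∈ (Polynomial.nthRoots n (1 : ℂ)).toFinset, (fun s => ω * s) '' T) :=
        measure_mono hcov
    _ ≤ ∑ ω ∈ (Polynomial.nthRoots n (1 : ℂ)).toFinset, volume ((fun s => ω * s) '' T) :=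
        measure_biUnion_finset_le _ _
    _ = ∑ ω ∈ (Polynomial.nthRoots n (1 : ℂ)).toFinset, volume T := by
        refine Finset.sum_congr rfl fun ω hω => vol_rot ω ?_ T
        rw [Multiset.mem_toFinset, Polynomial.mem_nthRoots (by omega)] at hω
        exact Complex.norm_eq_one_of_pow_eq_one hω hn0
    _ = ((Polynomial.nthRoots n (1 : ℂ)).toFinset.card : ENNReal) * volume T := by
        rw [Finset.sum_const, nsmul_eq_mul]
    _ ≤ n * (ENNReal.ofReal (1 / ((n : ℝ) ^ 2 * (‖v‖ ^ 2 * ρ₀ ^ 4))) * volume S) := by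
        gcongr
    _ = ENNReal.ofReal (1 / (‖v‖ ^ 2 * ρ₀ ^ 4) / n) * volume S := by
        rw [← mul_assoc]
        congr 1
        rw [← ENNReal.ofReal_natCast, ← ENNReal.ofReal_mul hnpos.le]
        congr 1
        field_simp

end Pool.Agent.K3h34.CR
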